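import Pool.Agent.W91.BH.Stm

set_option autoImplicit false

open MeasureTheory
open scoped ENNReal ContDiff

/-! Assembly of project BH. -/

namespace Pool.Agent.W91.BH

noncomputable section

/-- Finite sums of atoms. -/
def S_REP : Prop := ∀ (n M N : ℕ) (α p : ℝ) (ι : Type) (F : Finset ι) (π : ι → Idx n)
  (c : ι → ℝ) (b : ι → E n → ℝ), 0 < p → p ≤ 1 → (∀ i ∈ F, 0 ≤ c i) →
  (∀ i ∈ F, IsAtom n M N (π i) (b i)) →
  ∃ s : Idx n → ℝ, Rep n M N (fun x => ∑ i ∈ F, c i * b i x) s ∧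
    bCost n α p s ≤ ∑ i ∈ F, ENNReal.ofReal (((2 : ℝ) ^ (((π i).1 : ℝ) * α) * c i) ^ p) *
      ENNReal.ofReal ((2 : ℝ) ^ (-(((π i).1 : ℝ) * n)))

lemma floor_div_eq (m : ℝ) (hm : 0 < m) (hmi : ∃ z : ℤ, (z : ℝ) = m) (s t : ℝ)
    (h : ⌊s⌋ = ⌊t⌋) : ⌊s / m⌋ = ⌊t / m⌋ := by
  obtain ⟨z, hz⟩ := hmi
  have key : ∀ s t : ℝ, ⌊s⌋ = ⌊t⌋ → ⌊s / m⌋ ≤ ⌊t / m⌋ := by
    intro s t h
    rw [Int.le_floor, le_div_iff₀ hm]
    have h1 : (⌊s / m⌋ : ℝ) * m ≤ s := by
      rw [← le_div_iff₀ hm]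
      exact Int.floor_le _
    have h2 : ⌊s / m⌋ * z ≤ ⌊s⌋ := by
      rw [Int.le_floor]
      push_cast
      rw [hz]
      exact h1
    have h3 : ((⌊s / m⌋ * z : ℤ) : ℝ) ≤ t := by
      calc ((⌊s / m⌋ * z : ℤ) : ℝ) ≤ (⌊s⌋ : ℝ) := by exact_mod_cast h2
        _ = (⌊t⌋ : ℝ) := by rw [h]
        _ ≤ t := Int.floor_le _
    push_cast at h3
    rw [hz] at h3
    exact h3
  exact le_antisymm (key s t h) (key t s h.symm)

lemma cube_nested (n : ℕ) (P Q : Idx n) (x : E n) (hP : x ∈ cube n P) (hQ : x ∈ cube n Q)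
    (h : P.1 ≤ Q.1) : cube n Q ⊆ cube n P := by
  intro y hy i
  have h1 : ⌊(2 : ℝ) ^ Q.1 * y i⌋ = ⌊(2 : ℝ) ^ Q.1 * x i⌋ := by rw [hy i, hQ i]
  have hpow : (2 : ℝ) ^ Q.1 = (2 : ℝ) ^ P.1 * (2 : ℝ) ^ (Q.1 - P.1) := by
    rw [← pow_add]
    congr 1
    omega
  have h2 := floor_div_eq ((2 : ℝ) ^ (Q.1 - P.1)) (by positivity)
    ⟨2 ^ (Q.1 - P.1), by push_cast; rfl⟩ _ _ h1
  have e : ∀ t : ℝ, (2 : ℝ) ^ Q.1 * t / (2 : ℝ) ^ (Q.1 - P.1) = (2 : ℝ) ^ P.1 * t := by
    intro t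
    rw [hpow]
    field_simp
  rw [e, e] at h2
  rw [h2]
  exact hP i

/-- the ancestor -/
def anc (n a : ℕ) (Q : Idx n) : Idx n := (Q.1 - a, fun i => Q.2 i / 2 ^ a)

/-- the position -/
def pos (n a : ℕ) (Q : Idx n) : Fin n → ℤ := fun i => Q.2 i % 2 ^ a

lemma dil_apply (n : ℕ) (Q : Idx n) (x : E n) (i : Fin n) :
    dil n Q x i = (2 : ℝ) ^ Q.1 * x i - (Q.2 i : ℝ) := by
  unfold dil
  simp

lemma split (n a : ℕ) (Q : Idx n) (i : Fin n) :
    (Q.2 i : ℝ) = (2 : ℝ) ^ a * (((anc n a Q).2 i : ℤ) : ℝ) + ((pos n a Q i : ℤ) : ℝ) := by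
  have h := Int.mul_ediv_add_emod (Q.2 i) (2 ^ a)
  unfold anc pos
  have h2 : ((2 ^ a * (Q.2 i / 2 ^ a) + Q.2 i % 2 ^ a : ℤ) : ℝ) = (Q.2 i : ℝ) := by
    rw [h]
  rw [← h2]
  push_cast
  ring

lemma mem_anc (n a : ℕ) (Q : Idx n) (ha : a ≤ Q.1) (x : E n)
    (h : ∀ i, -((pos n a Q i : ℤ) : ℝ) ≤ dil n Q x i ∧
      dil n Q x i < (2 : ℝ) ^ a - ((pos n a Q i : ℤ) : ℝ)) : x ∈ cube n (anc n a Q) := by
  intro i
  obtain ⟨h1, h2⟩ := h i
  rw [dil_apply, split n a Q i] at h1 h2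
  have hpow : (2 : ℝ) ^ Q.1 = (2 : ℝ) ^ a * (2 : ℝ) ^ (Q.1 - a) := by
    rw [← pow_add]
    congr 1
    omega
  rw [hpow] at h1 h2
  have ha0 : (0 : ℝ) < (2 : ℝ) ^ a := by positivity
  rw [Int.floor_eq_iff]
  constructor
  · change (((anc n a Q).2 i : ℤ) : ℝ) ≤ (2 : ℝ) ^ (Q.1 - a) * x i
    nlinarith
  · change (2 : ℝ) ^ (Q.1 - a) * x i < (((anc n a Q).2 i : ℤ) : ℝ) + 1
    nlinarith

lemma dil_mem (n : ℕ) (Q : Idx n) (x : E n) (h : x ∈ cube n Q) (i : Fin n) :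
    0 ≤ dil n Q x i ∧ dil n Q x i < 1 := by
  rw [dil_apply]
  have h1 := h i
  rw [Int.floor_eq_iff] at h1
  constructor
  · linarith [h1.1]
  · linarith [h1.2]

lemma pos_mem (n a : ℕ) (Q : Idx n) (i : Fin n) : 0 ≤ pos n a Q i ∧ pos n a Q i < 2 ^ a := by
  unfold pos
  exact ⟨Int.emod_nonneg _ (by positivity), Int.emod_lt_of_pos _ (by positivity)⟩

lemma sub_anc (n a : ℕ) (Q : Idx n) (ha : a ≤ Q.1) : cube n Q ⊆ cube n (anc n a Q) := by
  intro x hx
  apply mem_anc n a Q ha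
  intro i
  have h := dil_mem n Q x hx i
  have hp := pos_mem n a Q i
  have hp0 : (0 : ℝ) ≤ ((pos n a Q i : ℤ) : ℝ) := by exact_mod_cast hp.1
  have hp1 : ((pos n a Q i : ℤ) : ℝ) + 1 ≤ (2 : ℝ) ^ a := by
    have : pos n a Q i + 1 ≤ 2 ^ a := hp.2
    exact_mod_cast this
  constructor <;> linarith [h.1, h.2]

lemma cube_nonempty (n : ℕ) (Q : Idx n) : (cube n Q).Nonempty := by
  refine ⟨WithLp.toLp 2 (fun i => (Q.2 i : ℝ) / 2 ^ Q.1), ?_⟩
  intro i
  have : (2 : ℝ) ^ Q.1 * ((Q.2 i : ℝ) / 2 ^ Q.1) = (Q.2 i : ℝ) := by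
    field_simp
  change ⌊(2 : ℝ) ^ Q.1 * ((Q.2 i : ℝ) / 2 ^ Q.1)⌋ = Q.2 i
  rw [this, Int.floor_intCast]

lemma compact_of_atom (n M N : ℕ) (Q : Idx n) (a : E n → ℝ) (h : IsAtom n M N Q a) :
    HasCompactSupport a := by
  have hc : IsCompact ((fun f : Fin n → ℝ => (WithLp.toLp 2 f : E n)) ''
      (Set.univ.pi (fun i => Set.Icc (((Q.2 i : ℝ) - 1) / 2 ^ Q.1)
        (((Q.2 i : ℝ) + 2) / 2 ^ Q.1)))) := by
    apply IsCompact.image
    · exact isCompact_univ_pi (fun i => isCompact_Icc)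
    · exact PiLp.continuous_toLp 2 _
  refine HasCompactSupport.intro hc ?_
  intro x hx
  by_contra hne
  apply hx
  refine ⟨fun i => x i, ?_, ?_⟩
  · intro i _
    have h1 := h.supp x hne i
    rw [abs_le] at h1
    have hp : (0 : ℝ) < 2 ^ Q.1 := by positivity
    constructor
    · rw [div_le_iff₀ hp]
      linarith [h1.1]
    · rw [le_div_iff₀ hp]
      linarith [h1.2]
  · rfl


lemma exists_level (a0 : ℕ) (C0 t : ℝ) (hC : 0 < C0) (ht : 0 < t) :
    ∃ a, a0 ≤ a ∧ C0 * (2 : ℝ) ^ (-((a : ℝ) * t)) ≤ 1 / 2 := by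
  have hr0 : 0 < (2 : ℝ) ^ (-t) := by positivity
  have hr1 : (2 : ℝ) ^ (-t) < 1 := Real.rpow_lt_one_of_one_lt_of_neg (by norm_num) (by linarith)
  obtain ⟨a1, ha1⟩ := exists_pow_lt_of_lt_one (show (0 : ℝ) < 1 / (2 * C0) by positivity) hr1
  refine ⟨max a0 a1, le_max_left _ _, ?_⟩
  have h1 : (2 : ℝ) ^ (-(((max a0 a1 : ℕ) : ℝ) * t)) = ((2 : ℝ) ^ (-t)) ^ (max a0 a1) := by
    rw [← Real.rpow_natCast, ← Real.rpow_mul (by norm_num)]
    congr 1
    ring
  have h2 : ((2 : ℝ) ^ (-t)) ^ (max a0 a1) ≤ ((2 : ℝ) ^ (-t)) ^ a1 :=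
    pow_le_pow_of_le_one hr0.le hr1.le (le_max_right _ _)
  rw [h1]
  calc C0 * ((2 : ℝ) ^ (-t)) ^ (max a0 a1) ≤ C0 * (1 / (2 * C0)) :=
        mul_le_mul_of_nonneg_left (h2.trans ha1.le) hC.le
    _ = 1 / 2 := by field_simp

open Classical in
lemma key (hcov1 : S_COV1) (hcov2 : S_COV2) (hlam : S_LAM) (hshape : S_SHAPE) (hatom : S_ATOM)
    (hrep : S_REP) (n M N : ℕ) (α p : ℝ) (K : Set (E n)) (hp0 : 0 < p) (hp1 : p ≤ 1)
    (hα : 0 < α) (hαp : α * p < n) (hK : IsCompact K)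
    (hH : Measure.hausdorffMeasure (n - α * p) K = 0) (ε : ℝ) (hε : 0 < ε) :
    ∃ (u : E n → ℝ) (s : Idx n → ℝ), IsTest n K u ∧ Rep n M N u s ∧
      bCost n α p s ≤ ENNReal.ofReal ε := by
  have hαp0 : 0 < α * p := mul_pos hα hp0
  have hn : 0 < n := by
    rcases Nat.eq_zero_or_pos n with h | h
    · subst h
      simp at hαp
      linarith
    · exact h
  set d : ℝ := n - α * p with hd
  have hd0 : 0 < d := by rw [hd]; linarith
  obtain ⟨C0, hC0, a0, hsh⟩ := hshape n N hn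
  obtain ⟨a, ha0, ha⟩ := exists_level a0 C0 (α * p) hC0 hαp0
  choose! B η hB using hsh a ha0
  have hat : ∀ σ : Fin n → ℤ, (∀ i, 0 ≤ σ i ∧ σ i < 2 ^ a) → ∃ C : ℝ, 0 < C ∧
      ∀ Q : Idx n, a ≤ Q.1 → (∀ i, Q.2 i % 2 ^ a = σ i) →
        IsAtom n M N (Q.1 - a, fun i => Q.2 i / 2 ^ a) (fun x => C⁻¹ * B σ (dil n Q x)) := by
    intro σ hσ
    exact hatom n M N a σ (B σ) (hB σ hσ).smooth hσ (hB σ hσ).supp (hB σ hσ).moment
  choose! C hC using hat
  -- the constant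
  set Cm : ℝ := ∑ σ ∈ Fintype.piFinset (fun _ : Fin n => Finset.Ico (0 : ℤ) (2 ^ a)), C σ with hCm
  have hval : ∀ σ ∈ Fintype.piFinset (fun _ : Fin n => Finset.Ico (0 : ℤ) (2 ^ a)),
      ∀ i, 0 ≤ σ i ∧ σ i < 2 ^ a := by
    intro σ hσ i
    have := Fintype.mem_piFinset.mp hσ i
    exact Finset.mem_Ico.mp this
  have hCle : ∀ Q : Idx n, C (pos n a Q) ≤ Cm := by
    intro Q
    refine Finset.single_le_sum (f := C) (fun σ hσ => (hC σ (hval σ hσ)).1.le) ?_
    rw [Fintype.mem_piFinset]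
    intro i
    exact Finset.mem_Ico.mpr (pos_mem n a Q i)
  have hCpos : ∀ Q : Idx n, 0 < C (pos n a Q) := fun Q => (hC _ (pos_mem n a Q)).1
  have hCm0 : 0 < Cm := (hCpos (0, fun _ => 0)).trans_le (hCle _)
  have hDpos : 0 < Cm ^ p * (2 : ℝ) ^ ((a : ℝ) * d) := by positivity
  set ε' : ℝ := min (ε / (2 * (Cm ^ p * (2 : ℝ) ^ ((a : ℝ) * d)))) ((2 : ℝ) ^ (-((a : ℝ) * d)))
    with hε'
  have hε'0 : 0 < ε' := lt_min (by positivity) (by positivity)
  obtain ⟨F0, hF0, hF0s⟩ := hcov1 n d K hd0 hK hH ε' hε'0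
  obtain ⟨F, hFK, hFs, hFa, hFd, hFp⟩ := hcov2 n d K F0 ε' a hn hd0 hF0 hF0s (min_le_right _ _)
  -- the weights
  set w : F → ℝ := fun i => (2 : ℝ) ^ (-((i.1.1 : ℝ) * d)) with hw
  set T : F → F → ℝ := fun i j => if cube n i.1 ⊆ cube n (anc n a j.1) then
    C0 / ((2 : ℝ) ^ a) ^ n else 0 with hT
  have hTnn : ∀ i j, 0 ≤ T i j := by
    intro i j
    rw [hT]
    dsimp only
    split_ifs
    · positivity
    · exact le_refl _
  have hcol : ∀ j, ∑ i, w i * T i j ≤ w j / 2 := by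
    intro j
    have h1 : ∑ i : F, w i * T i j
        = (∑ Q ∈ F.filter (fun Q => cube n Q ⊆ cube n (anc n a j.1)),
          (2 : ℝ) ^ (-((Q.1 : ℝ) * d))) * (C0 / ((2 : ℝ) ^ a) ^ n) := by
      rw [Finset.sum_filter, Finset.sum_mul, ← Finset.sum_coe_sort F]
      refine Finset.sum_congr rfl ?_
      intro i _
      rw [hT, hw]
      dsimp only
      split_ifs
      · rfl
      · ring
    rw [h1]
    have h2 := hFp (anc n a j.1)
    have h3 : ((anc n a j.1).1 : ℝ) = (j.1.1 : ℝ) - a := by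
      unfold anc
      dsimp only
      rw [Nat.cast_sub (hFa j.1 j.2)]
    rw [h3] at h2
    calc _ ≤ (2 : ℝ) ^ (-(((j.1.1 : ℝ) - a) * d)) * (C0 / ((2 : ℝ) ^ a) ^ n) :=
          mul_le_mul_of_nonneg_right h2 (by positivity)
      _ = (2 : ℝ) ^ (-((j.1.1 : ℝ) * d)) * (C0 * (2 : ℝ) ^ (-((a : ℝ) * (α * p)))) := by
          have e1 : ((2 : ℝ) ^ a) ^ n = (2 : ℝ) ^ ((a : ℝ) * n) := by
            rw [← pow_mul, ← Real.rpow_natCast]
            congr 1
            push_cast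
            ring
          have e2 : (2 : ℝ) ^ (-(((j.1.1 : ℝ) - a) * d))
              = (2 : ℝ) ^ (-((j.1.1 : ℝ) * d)) * (2 : ℝ) ^ ((a : ℝ) * d) := by
            rw [← Real.rpow_add (by norm_num)]
            congr 1
            ring
          have e3 : (2 : ℝ) ^ ((a : ℝ) * d)
              = (2 : ℝ) ^ ((a : ℝ) * n) * (2 : ℝ) ^ (-((a : ℝ) * (α * p))) := by
            rw [← Real.rpow_add (by norm_num)]
            congr 1
            rw [hd]
            ring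
          rw [e1, e2, e3]
          have : (2 : ℝ) ^ ((a : ℝ) * n) ≠ 0 := by positivity
          field_simp
      _ ≤ (2 : ℝ) ^ (-((j.1.1 : ℝ) * d)) * (1 / 2) :=
          mul_le_mul_of_nonneg_left ha (by positivity)
      _ = w j / 2 := by rw [hw]; ring
  obtain ⟨l, hl1, hlT, hls⟩ := hlam F w T (fun i => by rw [hw]; positivity) hTnn hcol
  -- the function
  have hatoms : ∀ i : F, IsAtom n M N (anc n a i.1)
      (fun x => (C (pos n a i.1))⁻¹ * B (pos n a i.1) (dil n i.1 x)) := by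
    intro i
    exact (hC _ (pos_mem n a i.1)).2 i.1 (hFa i.1 i.2) (fun _ => rfl)
  obtain ⟨s, hs, hcost⟩ := hrep n M N α p F Finset.univ (fun i => anc n a i.1)
    (fun i => l i * C (pos n a i.1))
    (fun i x => (C (pos n a i.1))⁻¹ * B (pos n a i.1) (dil n i.1 x)) hp0 hp1
    (fun i _ => mul_nonneg (by linarith [hl1 i]) (hCpos i.1).le) (fun i _ => hatoms i)
  refine ⟨_, s, ⟨?_, ?_, ?_⟩, hs, ?_⟩
  · apply ContDiff.sum
    intro i _
    exact contDiff_const.mul (hatoms i).smooth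
  · have hind : ∀ G : Finset F, HasCompactSupport (fun x => ∑ i ∈ G, l i * C (pos n a i.1) *
        ((C (pos n a i.1))⁻¹ * B (pos n a i.1) (dil n i.1 x))) := by
      intro G
      induction G using Finset.induction_on with
      | empty =>
        simp only [Finset.sum_empty]
        exact HasCompactSupport.zero
      | insert i G hi ih =>
        have h1 : HasCompactSupport (fun x => l i * C (pos n a i.1) *
            ((C (pos n a i.1))⁻¹ * B (pos n a i.1) (dil n i.1 x))) :=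
          (compact_of_atom n M N _ _ (hatoms i)).mul_left
        have h2 := h1.add ih
        have e : (fun x => ∑ j ∈ insert i G, l j * C (pos n a j.1) *
            ((C (pos n a j.1))⁻¹ * B (pos n a j.1) (dil n j.1 x)))
            = (fun x => l i * C (pos n a i.1) *
            ((C (pos n a i.1))⁻¹ * B (pos n a i.1) (dil n i.1 x))) + (fun x => ∑ j ∈ G,
            l j * C (pos n a j.1) * ((C (pos n a j.1))⁻¹ * B (pos n a j.1) (dil n j.1 x))) := by
          funext x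
          rw [Finset.sum_insert hi]
          rfl
        rw [e]
        exact h2
    exact hind Finset.univ
  · intro x hx
    obtain ⟨Q, hQF, hxQ⟩ := Set.mem_iUnion₂.mp (hFK hx)
    have hl0 : ∀ j, 0 ≤ l j := fun j => by linarith [hl1 j]
    have hη : ∀ j : F, |η (pos n a j.1) (dil n j.1 x)| ≤ T ⟨Q, hQF⟩ j := by
      intro j
      by_cases h0 : η (pos n a j.1) (dil n j.1 x) = 0
      · rw [h0, abs_zero]
        exact hTnn _ _
      · have hxa : x ∈ cube n (anc n a j.1) := by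
          apply mem_anc n a j.1 (hFa j.1 j.2)
          exact (hB _ (pos_mem n a j.1)).suppη _ h0
        have hsub : cube n Q ⊆ cube n (anc n a j.1) := by
          rcases le_or_gt (anc n a j.1).1 Q.1 with hle | hlt
          · exact cube_nested n _ _ x hxa hxQ hle
          · exfalso
            have h1 : cube n (anc n a j.1) ⊆ cube n Q :=
              cube_nested n _ _ x hxQ hxa hlt.le
            have h2 : cube n j.1 ⊆ cube n Q := (sub_anc n a j.1 (hFa j.1 j.2)).trans h1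
            have hne : Q ≠ j.1 := by
              intro he
              have : (anc n a j.1).1 ≤ j.1.1 := Nat.sub_le _ _
              rw [he] at hlt
              exact absurd hlt (not_lt.mpr this)
            obtain ⟨y, hy⟩ := cube_nonempty n j.1
            exact Set.disjoint_left.mp (hFd Q hQF j.1 j.2 hne) (h2 hy) hy
        have hTe : T ⟨Q, hQF⟩ j = C0 / ((2 : ℝ) ^ a) ^ n := by
          rw [hT]
          dsimp only
          rw [if_pos hsub]
        rw [hTe]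
        exact (hB _ (pos_mem n a j.1)).small _
    have hterm : ∀ j : F, l j * C (pos n a j.1) *
        ((C (pos n a j.1))⁻¹ * B (pos n a j.1) (dil n j.1 x))
        = l j * (B (pos n a j.1) (dil n j.1 x) + η (pos n a j.1) (dil n j.1 x))
          - l j * η (pos n a j.1) (dil n j.1 x) := by
      intro j
      have := (hCpos j.1).ne'
      field_simp
      ring
    rw [Finset.sum_congr rfl (fun j _ => hterm j), Finset.sum_sub_distrib]
    have h1 : l ⟨Q, hQF⟩ ≤ ∑ j : F, l j * (B (pos n a j.1) (dil n j.1 x)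
        + η (pos n a j.1) (dil n j.1 x)) := by
      have h2 : l ⟨Q, hQF⟩ * (B (pos n a Q) (dil n Q x) + η (pos n a Q) (dil n Q x))
          ≤ ∑ j : F, l j * (B (pos n a j.1) (dil n j.1 x) + η (pos n a j.1) (dil n j.1 x)) :=
        Finset.single_le_sum (f := fun j : F => l j * (B (pos n a j.1) (dil n j.1 x)
          + η (pos n a j.1) (dil n j.1 x)))
          (fun j _ => mul_nonneg (hl0 j) ((hB _ (pos_mem n a j.1)).nonneg _))
          (Finset.mem_univ (⟨Q, hQF⟩ : F))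
      have h3 : 1 ≤ B (pos n a Q) (dil n Q x) + η (pos n a Q) (dil n Q x) :=
        (hB _ (pos_mem n a Q)).one _ (dil_mem n Q x hxQ)
      have h4 : l ⟨Q, hQF⟩ * 1
          ≤ l ⟨Q, hQF⟩ * (B (pos n a Q) (dil n Q x) + η (pos n a Q) (dil n Q x)) :=
        mul_le_mul_of_nonneg_left h3 (hl0 _)
      linarith
    have h5 : ∑ j : F, l j * η (pos n a j.1) (dil n j.1 x) ≤ ∑ j : F, T ⟨Q, hQF⟩ j * l j := by
      refine Finset.sum_le_sum ?_
      intro j _
      have h6 := (le_abs_self _).trans (hη j)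
      calc l j * η (pos n a j.1) (dil n j.1 x) ≤ l j * T ⟨Q, hQF⟩ j :=
            mul_le_mul_of_nonneg_left h6 (hl0 j)
        _ = T ⟨Q, hQF⟩ j * l j := mul_comm _ _
    have h7 := hlT ⟨Q, hQF⟩
    linarith
  · refine hcost.trans ?_
    have hterm : ∀ i : F, ENNReal.ofReal (((2 : ℝ) ^ (((anc n a i.1).1 : ℝ) * α) *
        (l i * C (pos n a i.1))) ^ p) *
        ENNReal.ofReal ((2 : ℝ) ^ (-(((anc n a i.1).1 : ℝ) * n)))
        ≤ ENNReal.ofReal (Cm ^ p * (2 : ℝ) ^ ((a : ℝ) * d) * (w i * l i)) := by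
      intro i
      have hl0 : 0 ≤ l i := by linarith [hl1 i]
      have hc0 : 0 ≤ l i * C (pos n a i.1) := mul_nonneg hl0 (hCpos i.1).le
      rw [← ENNReal.ofReal_mul (by positivity)]
      apply ENNReal.ofReal_le_ofReal
      have h3 : ((anc n a i.1).1 : ℝ) = (i.1.1 : ℝ) - a := by
        unfold anc
        dsimp only
        rw [Nat.cast_sub (hFa i.1 i.2)]
      rw [h3, Real.mul_rpow (by positivity) hc0, ← Real.rpow_mul (by norm_num)]
      have h4 : (l i * C (pos n a i.1)) ^ p ≤ Cm ^ p * l i := by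
        rw [Real.mul_rpow hl0 (hCpos i.1).le]
        have h5 : l i ^ p ≤ l i := by
          have := Real.rpow_le_rpow_of_exponent_le (hl1 i) hp1
          rwa [Real.rpow_one] at this
        have h6 : C (pos n a i.1) ^ p ≤ Cm ^ p :=
          Real.rpow_le_rpow (hCpos i.1).le (hCle i.1) hp0.le
        calc l i ^ p * C (pos n a i.1) ^ p ≤ l i * Cm ^ p :=
              mul_le_mul h5 h6 (by have := (hCpos i.1).le; positivity) hl0
          _ = Cm ^ p * l i := mul_comm _ _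
      have h7 : (2 : ℝ) ^ (((i.1.1 : ℝ) - a) * α * p) * (2 : ℝ) ^ (-(((i.1.1 : ℝ) - a) * n))
          = (2 : ℝ) ^ ((a : ℝ) * d) * w i := by
        rw [hw, ← Real.rpow_add (by norm_num), ← Real.rpow_add (by norm_num)]
        congr 1
        rw [hd]
        ring
      calc (2 : ℝ) ^ (((i.1.1 : ℝ) - a) * α * p) * (l i * C (pos n a i.1)) ^ p *
            (2 : ℝ) ^ (-(((i.1.1 : ℝ) - a) * n))
          = (l i * C (pos n a i.1)) ^ p * ((2 : ℝ) ^ (((i.1.1 : ℝ) - a) * α * p) *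
            (2 : ℝ) ^ (-(((i.1.1 : ℝ) - a) * n))) := by ring
        _ = (l i * C (pos n a i.1)) ^ p * ((2 : ℝ) ^ ((a : ℝ) * d) * w i) := by rw [h7]
        _ ≤ (Cm ^ p * l i) * ((2 : ℝ) ^ ((a : ℝ) * d) * w i) :=
            mul_le_mul_of_nonneg_right h4 (by rw [hw]; positivity)
        _ = Cm ^ p * (2 : ℝ) ^ ((a : ℝ) * d) * (w i * l i) := by ring
    refine (Finset.sum_le_sum (fun i _ => hterm i)).trans ?_
    rw [← ENNReal.ofReal_sum_of_nonneg]
    · apply ENNReal.ofReal_le_ofReal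
      rw [← Finset.mul_sum]
      have hws : ∑ i : F, w i ≤ ε' := by
        have : ∑ i : F, w i = ∑ Q ∈ F, (2 : ℝ) ^ (-((Q.1 : ℝ) * d)) := by
          rw [hw]
          exact Finset.sum_coe_sort F (fun Q => (2 : ℝ) ^ (-((Q.1 : ℝ) * d)))
        rw [this]
        exact hFs.le
      have h8 : ∑ i : F, w i * l i ≤ 2 * ε' := by linarith
      have h9 : ε' ≤ ε / (2 * (Cm ^ p * (2 : ℝ) ^ ((a : ℝ) * d))) := min_le_left _ _
      calc Cm ^ p * (2 : ℝ) ^ ((a : ℝ) * d) * ∑ i : F, w i * l i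
          ≤ Cm ^ p * (2 : ℝ) ^ ((a : ℝ) * d) *
            (2 * (ε / (2 * (Cm ^ p * (2 : ℝ) ^ ((a : ℝ) * d))))) :=
            mul_le_mul_of_nonneg_left (by linarith) hDpos.le
        _ = ε := by field_simp
    · intro i _
      have : 0 ≤ l i := by linarith [hl1 i]
      have hwi : 0 < w i := by rw [hw]; positivity
      positivity

theorem main (hcov1 : S_COV1) (hcov2 : S_COV2) (hlam : S_LAM) (hshape : S_SHAPE)
    (hatom : S_ATOM) (hrep : S_REP) (hfb : S_FB) : S_MAIN := by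
  intro n M N α p K hp0 hp1 hα hαp hK hH
  have hA : ∀ ε : ℝ, 0 < ε → capA n M N α p K ≤ ENNReal.ofReal ε ∧
      capB n M N α p K ≤ ENNReal.ofReal ε := by
    intro ε hε
    obtain ⟨u, s, hu, hs, hc⟩ := key hcov1 hcov2 hlam hshape hatom hrep n M N α p K hp0 hp1 hα
      hαp hK hH ε hε
    constructor
    · unfold capA
      refine le_trans ?_ hc
      exact iInf_le_of_le u (iInf_le_of_le s (iInf_le_of_le hu (iInf_le_of_le hs le_rfl)))
    · unfold capB
      refine le_trans ?_ ((hfb n α p s hp0 (by linarith)).trans hc)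
      exact iInf_le_of_le u (iInf_le_of_le s (iInf_le_of_le hu (iInf_le_of_le hs le_rfl)))
  have hz : ∀ c : ℝ≥0∞, (∀ ε : ℝ, 0 < ε → c ≤ ENNReal.ofReal ε) → c = 0 := by
    intro c hc
    apply le_antisymm _ bot_le
    apply ENNReal.le_of_forall_pos_le_add
    intro ε hε _
    have := hc ε (by exact_mod_cast hε)
    rw [ENNReal.ofReal_coe_nnreal] at this
    simpa using this
  exact ⟨hz _ (fun ε hε => (hA ε hε).1), hz _ (fun ε hε => (hA ε hε).2)⟩

end

end Pool.Agent.W91.BH
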