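import Pool.Agent.W91.BH.Stm2

set_option autoImplicit false

open MeasureTheory
open scoped ENNReal ContDiff

/-! The full answer from the parts. -/

namespace Pool.Agent.W91.BH

noncomputable section

lemma zero_atom (n M N : ℕ) (Q : Idx n) : IsAtom n M N Q (fun _ => 0) where
  smooth := contDiff_const
  supp := fun _ h => absurd rfl h
  bound := by
    intro m _ x
    have : iteratedFDeriv ℝ m (fun _ : E n => (0 : ℝ)) x = 0 := by
      have h := iteratedFDeriv_fun_zero (𝕜 := ℝ) (E := E n) (F := ℝ) (n := m)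
      exact congrFun h x
    rw [this, norm_zero]
    positivity
  moment := by
    intro _ β _
    simp

lemma capA_empty (n M N : ℕ) (α p : ℝ) (hp0 : 0 < p) : capA n M N α p ∅ = 0 := by
  apply le_antisymm _ bot_le
  unfold capA
  refine iInf_le_of_le (fun _ => 0) (iInf_le_of_le (fun _ => 0) (iInf_le_of_le ?_
    (iInf_le_of_le ?_ ?_)))
  · exact ⟨contDiff_const, HasCompactSupport.zero, fun x hx => absurd hx (Set.notMem_empty x)⟩
  · refine ⟨fun _ _ => 0, fun Q => zero_atom n M N Q, ?_⟩
    intro φ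
    simp only [zero_mul, integral_zero, mul_zero]
    exact hasSum_zero
  · unfold bCost
    have : ∀ Q : Idx n, ENNReal.ofReal (((2 : ℝ) ^ ((Q.1 : ℝ) * α) * |(0 : ℝ)|) ^ p) *
        ENNReal.ofReal ((2 : ℝ) ^ (-((Q.1 : ℝ) * n))) = 0 := by
      intro Q
      rw [abs_zero, mul_zero, Real.zero_rpow hp0.ne', ENNReal.ofReal_zero, zero_mul]
    simp only [this, tsum_zero]
    exact le_refl _

lemma capB_le_capA (hfb : S_FB) (n M N : ℕ) (α p : ℝ) (K : Set (E n)) (hp0 : 0 < p)
    (hp1 : p ≤ 1) : capB n M N α p K ≤ capA n M N α p K := by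
  unfold capB capA
  refine iInf_mono fun u => iInf_mono fun s => iInf_mono fun _ => iInf_mono fun _ => ?_
  exact hfb n α p s hp0 (by linarith)

theorem full (hmain : S_MAIN) (hlow : S_LOW) (hfro : S_FRO) (hfb : S_FB) : S_FULL := by
  intro n M N α p K hn hα hp0 hp1 hN hK
  have hαp : 0 < α * p := mul_pos hα hp0
  have hAB : capA n M N α p K = 0 → capB n M N α p K = 0 := fun h =>
    le_antisymm ((capB_le_capA hfb n M N α p K hp0 hp1).trans h.le) bot_le
  have hBH : α * p < n → capB n M N α p K = 0 →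
      Measure.hausdorffMeasure (n - α * p) K = 0 := by
    intro hlt hB
    by_contra hne
    have hKne : K.Nonempty := by
      rw [Set.nonempty_iff_ne_empty]
      intro he
      apply hne
      rw [he]
      exact measure_empty
    obtain ⟨μ, C, hgr⟩ := hfro n (n - α * p) K (by linarith) hK hKne (fun _ => hne)
    exact hlow n M N α p (n - α * p) C K μ hn hα hp0 hp1 (by linarith) (by linarith)
      (by linarith) hN hK hgr hB
  have hBE : n ≤ α * p → capB n M N α p K = 0 → K = ∅ := by
    intro hle hB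
    by_contra hne
    have hKne : K.Nonempty := Set.nonempty_iff_ne_empty.mpr hne
    obtain ⟨μ, C, hgr⟩ := hfro n 0 K le_rfl hK hKne (fun h => absurd h (lt_irrefl 0))
    exact hlow n M N α p 0 C K μ hn hα hp0 hp1 le_rfl (by positivity)
      (by linarith) hN hK hgr hB
  refine ⟨⟨hAB, ?_⟩, ?_, ?_⟩
  · intro hB
    rcases lt_or_ge (α * p) (n : ℝ) with hlt | hge
    · exact (hmain n M N α p K hp0 hp1 hα hlt hK (hBH hlt hB)).1
    · rw [hBE hge hB]
      exact capA_empty n M N α p hp0
  · intro hlt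
    exact ⟨fun hA => hBH hlt (hAB hA), fun hH => (hmain n M N α p K hp0 hp1 hα hlt hK hH).1⟩
  · intro hge
    constructor
    · intro hA
      exact hBE hge (hAB hA)
    · intro he
      rw [he]
      exact capA_empty n M N α p hp0

theorem supf' : S_SUPF := by
  intro n α p s G hp0
  unfold fCost
  apply lintegral_mono
  intro x
  dsimp only
  refine iSup_le fun Q => iSup_le fun _ => ?_
  by_cases hx : x ∈ cube n Q
  · rw [Set.indicator_of_mem hx]
    have hc : 0 ≤ (2 : ℝ) ^ ((Q.1 : ℝ) * α) * |s Q| := by positivity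
    have h1 : ENNReal.ofReal (((2 : ℝ) ^ ((Q.1 : ℝ) * α) * |s Q|) ^ (2 : ℝ))
        ≤ ∑' Q : Idx n, (cube n Q).indicator
          (fun _ => ENNReal.ofReal (((2 : ℝ) ^ ((Q.1 : ℝ) * α) * |s Q|) ^ (2 : ℝ))) x := by
      have h2 := ENNReal.le_tsum (f := fun Q : Idx n => (cube n Q).indicator
          (fun _ => ENNReal.ofReal (((2 : ℝ) ^ ((Q.1 : ℝ) * α) * |s Q|) ^ (2 : ℝ))) x) Q
      rwa [Set.indicator_of_mem hx] at h2
    calc ENNReal.ofReal (((2 : ℝ) ^ ((Q.1 : ℝ) * α) * |s Q|) ^ p)
        = (ENNReal.ofReal (((2 : ℝ) ^ ((Q.1 : ℝ) * α) * |s Q|) ^ (2 : ℝ))) ^ (p / 2) := by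
          rw [ENNReal.ofReal_rpow_of_nonneg (by positivity) (by positivity),
            ← Real.rpow_mul hc]
          congr 2
          ring
      _ ≤ _ := ENNReal.rpow_le_rpow h1 (by positivity)
  · rw [Set.indicator_of_notMem hx]
    exact bot_le

end

end Pool.Agent.W91.BH
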