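import Pool.Agent.W91.BH.Stm2

set_option autoImplicit false

open MeasureTheory
open scoped ENNReal ContDiff

/-! Lower bound for the cost. -/

namespace Pool.Agent.W91.BH

noncomputable section

lemma tsum_rpow_le' {ι : Type} (f : ι → ℝ≥0∞) (p : ℝ) (hp0 : 0 < p) (hp1 : p ≤ 1) :
    (∑' i, f i) ^ p ≤ ∑' i, f i ^ p := by
  classical
  have hfin : ∀ s : Finset ι, (∑ i ∈ s, f i) ^ p ≤ ∑ i ∈ s, f i ^ p := by
    intro s
    induction s using Finset.induction_on with
    | empty => simp [hp0]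
    | insert i s hi ih =>
      rw [Finset.sum_insert hi, Finset.sum_insert hi]
      exact (ENNReal.rpow_add_le_add_rpow _ _ hp0.le hp1).trans (by gcongr)
  have h1 : (∑' i, f i) = ((∑' i, f i ^ p) ^ (1 / p)) ⊓ (∑' i, f i) := by
    rw [eq_comm, inf_eq_right, ENNReal.tsum_eq_iSup_sum]
    apply iSup_le
    intro s
    calc ∑ i ∈ s, f i = ((∑ i ∈ s, f i) ^ p) ^ (1 / p) := by
          rw [← ENNReal.rpow_mul, mul_one_div_cancel hp0.ne', ENNReal.rpow_one]
      _ ≤ (∑' i, f i ^ p) ^ (1 / p) := by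
          apply ENNReal.rpow_le_rpow _ (by positivity)
          exact (hfin s).trans (ENNReal.sum_le_tsum s)
  have h2 : (∑' i, f i) ≤ (∑' i, f i ^ p) ^ (1 / p) := by
    rw [h1]
    exact inf_le_left
  calc (∑' i, f i) ^ p ≤ ((∑' i, f i ^ p) ^ (1 / p)) ^ p := ENNReal.rpow_le_rpow h2 hp0.le
    _ = ∑' i, f i ^ p := by
        rw [← ENNReal.rpow_mul, one_div_mul_cancel hp0.ne', ENNReal.rpow_one]

/-- uniform continuity: averages of the test function are at least one half. -/
lemma avg_ge (n : ℕ) (K : Set (E n)) (u : E n → ℝ) (hu : IsTest n K u) (C : ℝ) (hC : 0 < C)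
    (Φ : ℕ → E n → SchwartzMap (E n) ℝ) (h0 : ∀ j x y, 0 ≤ Φ j x y)
    (h1 : ∀ j x, ∫ y, Φ j x y = 1)
    (hs : ∀ j x y, Φ j x y ≠ 0 → dist y x ≤ C * (1 / 2 : ℝ) ^ j) :
    ∃ j, ∀ x ∈ K, 1 / 2 ≤ ∫ y, u y * Φ j x y := by
  have huc : UniformContinuous u := hu.2.1.uniformContinuous_of_continuous hu.1.continuous
  obtain ⟨δ, hδ, hd⟩ := Metric.uniformContinuous_iff.mp huc (1 / 2) (by norm_num)
  obtain ⟨j, hj⟩ := exists_pow_lt_of_lt_one (show (0 : ℝ) < δ / C by positivity)
    (show (1 / 2 : ℝ) < 1 by norm_num)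
  refine ⟨j, ?_⟩
  intro x hx
  have hux := hu.2.2 x hx
  have hint : Integrable (fun y => Φ j x y) := (Φ j x).integrable
  have hint2 : Integrable (fun y => u y * Φ j x y) := by
    obtain ⟨B, hB⟩ := hu.1.continuous.bounded_above_of_compact_support hu.2.1
    exact hint.bdd_mul hu.1.continuous.aestronglyMeasurable (Filter.Eventually.of_forall hB)
  calc (1 / 2 : ℝ) = ∫ y, (1 / 2 : ℝ) * Φ j x y := by rw [integral_const_mul, h1]; ring
    _ ≤ ∫ y, u y * Φ j x y := by
        apply integral_mono (hint.const_mul _) hint2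
        intro y
        dsimp only
        by_cases hz : Φ j x y = 0
        · rw [hz]; simp
        · apply mul_le_mul_of_nonneg_right _ (h0 j x y)
          have h2 := hs j x y hz
          have h3 : dist y x < δ := by
            calc dist y x ≤ C * (1 / 2 : ℝ) ^ j := h2
              _ < C * (δ / C) := mul_lt_mul_of_pos_left hj hC
              _ = δ := by field_simp
          have h4 := hd h3
          rw [Real.dist_eq, abs_lt] at h4
          linarith [h4.1]


lemma pw_nonneg (m k j : ℕ) : 0 ≤ pw m k j := by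
  unfold pw
  split_ifs
  · norm_num
  · positivity

/-- The pairing inequality raised to the power `p`, pointwise. -/
lemma point (n M N : ℕ) (p : ℝ) (hp0 : 0 < p) (hp1 : p ≤ 1) (u : E n → ℝ) (s : Idx n → ℝ)
    (hr : Rep n M N u s) (C : ℝ) (hC : 0 < C) (Φ : ℕ → E n → SchwartzMap (E n) ℝ)
    (hP : ∀ (Q : Idx n) (a : E n → ℝ), IsAtom n M N Q a → ∀ j x,
      |∫ y, a y * Φ j x y| ≤ C * pw (n + N + 1) Q.1 j ∧
      (rad Q.1 j C < dist x (ctr n Q) → ∫ y, a y * Φ j x y = 0)) (j : ℕ) (x : E n)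
    (hx : 1 / 2 ≤ ∫ y, u y * Φ j x y) :
    ENNReal.ofReal ((1 / 2 : ℝ) ^ p) ≤ ∑' Q : Idx n,
      ENNReal.ofReal ((|s Q| * (C * pw (n + N + 1) Q.1 j)) ^ p) *
        (Metric.closedBall (ctr n Q) (rad Q.1 j C)).indicator (fun _ => 1) x := by
  obtain ⟨a, ha, hsum⟩ := hr
  have h1 := hsum (Φ j x)
  have h2 : ENNReal.ofReal (∫ y, u y * Φ j x y)
      ≤ ∑' Q, ENNReal.ofReal |s Q * ∫ y, a Q y * Φ j x y| := by
    rw [← h1.tsum_eq]
    have h3 : Summable (fun Q => |s Q * ∫ y, a Q y * Φ j x y|) := h1.summable.abs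
    rw [← ENNReal.ofReal_tsum_of_nonneg (fun Q => abs_nonneg _) h3]
    apply ENNReal.ofReal_le_ofReal
    have h6 : |∑' Q, s Q * ∫ y, a Q y * Φ j x y| ≤ ∑' Q, |s Q * ∫ y, a Q y * Φ j x y| := by
      have h7 := norm_tsum_le_tsum_norm (f := fun Q => s Q * ∫ y, a Q y * Φ j x y)
        (by simpa only [Real.norm_eq_abs] using h3)
      simpa only [Real.norm_eq_abs] using h7
    exact (le_abs_self _).trans h6
  calc ENNReal.ofReal ((1 / 2 : ℝ) ^ p) ≤ (ENNReal.ofReal (∫ y, u y * Φ j x y)) ^ p := by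
        rw [← ENNReal.ofReal_rpow_of_pos (by norm_num)]
        exact ENNReal.rpow_le_rpow (ENNReal.ofReal_le_ofReal hx) hp0.le
    _ ≤ (∑' Q, ENNReal.ofReal |s Q * ∫ y, a Q y * Φ j x y|) ^ p :=
        ENNReal.rpow_le_rpow h2 hp0.le
    _ ≤ ∑' Q, (ENNReal.ofReal |s Q * ∫ y, a Q y * Φ j x y|) ^ p :=
        tsum_rpow_le' _ p hp0 hp1
    _ ≤ _ := by
        refine ENNReal.tsum_le_tsum ?_
        intro Q
        obtain ⟨h4, h5⟩ := hP Q (a Q) (ha Q) j x
        by_cases hd : rad Q.1 j C < dist x (ctr n Q)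
        · rw [h5 hd]
          simp [hp0]
        · have hmem : x ∈ Metric.closedBall (ctr n Q) (rad Q.1 j C) :=
            Metric.mem_closedBall.mpr (not_lt.mp hd)
          rw [Set.indicator_of_mem hmem, mul_one,
            ENNReal.ofReal_rpow_of_nonneg (abs_nonneg _) hp0.le]
          apply ENNReal.ofReal_le_ofReal
          apply Real.rpow_le_rpow (abs_nonneg _) _ hp0.le
          rw [abs_mul]
          exact mul_le_mul_of_nonneg_left h4 (abs_nonneg _)


lemma prod_eq (n m : ℕ) (α p C sq : ℝ) (k j : ℕ) (hp0 : 0 < p) (hC : 0 < C) :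
    (|sq| * (C * pw m k j)) ^ p
      = C ^ p * (((2 : ℝ) ^ ((k : ℝ) * α) * |sq|) ^ p *
        ((2 : ℝ) ^ (-((k : ℝ) * (α * p))) * (pw m k j) ^ p)) := by
  have h1 : 0 ≤ pw m k j := pw_nonneg m k j
  rw [Real.mul_rpow (abs_nonneg _) (by positivity), Real.mul_rpow hC.le h1,
    Real.mul_rpow (by positivity) (abs_nonneg _), ← Real.rpow_mul (by norm_num)]
  have h2 : (2 : ℝ) ^ ((k : ℝ) * α * p) * (2 : ℝ) ^ (-((k : ℝ) * (α * p))) = 1 := by
    rw [← Real.rpow_add (by norm_num)]
    have : (k : ℝ) * α * p + -((k : ℝ) * (α * p)) = 0 := by ring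
    rw [this, Real.rpow_zero]
  calc |sq| ^ p * (C ^ p * pw m k j ^ p)
      = (C ^ p * (|sq| ^ p * pw m k j ^ p)) * 1 := by ring
    _ = (C ^ p * (|sq| ^ p * pw m k j ^ p)) *
        ((2 : ℝ) ^ ((k : ℝ) * α * p) * (2 : ℝ) ^ (-((k : ℝ) * (α * p)))) := by rw [h2]
    _ = _ := by ring

theorem low (hpair : S_PAIR) (hcarl : S_CARL) (hsupf : S_SUPF) (hgeo : S_GEO) : S_LOW := by
  classical
  intro n M N α p e Cμ K μ hn hα hp0 hp1 he0 hen hnae hN hK hgr hzero
  obtain ⟨C, hC, Φ, hΦ0, hΦ1, hΦs, hP⟩ := hpair n M N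
  have hμ : IsProbabilityMeasure μ := hgr.1
  -- enlarge the constant in the radius
  set C' : ℝ := max C 1 with hC'
  have hCC' : C ≤ C' := le_max_left _ _
  obtain ⟨A, hA, hgeoA⟩ := hgeo n N α p e Cμ C' K μ hn hα hp0 he0 hen hnae hN hgr
    (le_max_right _ _)
  have hradle : ∀ k j : ℕ, rad k j C ≤ rad k j C' := by
    intro k j
    unfold rad
    exact mul_le_mul_of_nonneg_right hCC' (by positivity)
  -- the lower bound
  have hlow : ENNReal.ofReal ((1 / 2 : ℝ) ^ p) ≤
      ENNReal.ofReal (C ^ p * A) * capB n M N α p K := by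
    unfold capB
    have hne0 : ENNReal.ofReal (C ^ p * A) ≠ 0 := by
      rw [Ne, ENNReal.ofReal_eq_zero, not_le]
      positivity
    rw [ENNReal.mul_iInf' (fun h => absurd h ENNReal.ofReal_ne_top) (fun h => absurd h hne0)]
    refine le_iInf fun u => ?_
    rw [ENNReal.mul_iInf' (fun h => absurd h ENNReal.ofReal_ne_top) (fun h => absurd h hne0)]
    refine le_iInf fun s => ?_
    rw [ENNReal.mul_iInf' (fun h => absurd h ENNReal.ofReal_ne_top) (fun h => absurd h hne0)]
    refine le_iInf fun hu => ?_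
    rw [ENNReal.mul_iInf' (fun h => absurd h ENNReal.ofReal_ne_top) (fun h => absurd h hne0)]
    refine le_iInf fun hr => ?_
    obtain ⟨j, hj⟩ := avg_ge n K u hu C hC Φ hΦ0 hΦ1 hΦs
    set g : Idx n → ℝ := fun Q => ((2 : ℝ) ^ ((Q.1 : ℝ) * α) * |s Q|) ^ p with hg
    set v : Idx n → ℝ := fun Q => (2 : ℝ) ^ (-((Q.1 : ℝ) * (α * p))) *
      ((pw (n + N + 1) Q.1 j) ^ p * μ.real (Metric.closedBall (ctr n Q) (rad Q.1 j C'))) with hv
    have hg0 : ∀ Q, 0 ≤ g Q := fun Q => by rw [hg]; positivity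
    have hv0 : ∀ Q, 0 ≤ v Q := fun Q => by
      have := pw_nonneg (n + N + 1) Q.1 j
      rw [hv]
      positivity
    have hfin : ∀ G : Finset (Idx n), ENNReal.ofReal (∑ Q ∈ G, g Q * v Q)
        ≤ ENNReal.ofReal A * fCost n α p s := by
      intro G
      refine (hcarl n G g v A hA.le hg0 hv0 (fun P hP' => hgeoA j G P hP')).trans ?_
      gcongr
      exact hsupf n α p s G hp0
    have hint : ENNReal.ofReal ((1 / 2 : ℝ) ^ p) ≤ ∑' Q : Idx n,
        ENNReal.ofReal (C ^ p) * ENNReal.ofReal (g Q * v Q) := by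
      calc ENNReal.ofReal ((1 / 2 : ℝ) ^ p)
          = ∫⁻ _ : E n, ENNReal.ofReal ((1 / 2 : ℝ) ^ p) ∂μ := by
            rw [lintegral_const, measure_univ, mul_one]
        _ ≤ ∫⁻ x, ∑' Q : Idx n,
            ENNReal.ofReal ((|s Q| * (C * pw (n + N + 1) Q.1 j)) ^ p) *
            (Metric.closedBall (ctr n Q) (rad Q.1 j C)).indicator (fun _ => 1) x ∂μ := by
            apply lintegral_mono_ae
            have hKae : ∀ᵐ x ∂μ, x ∈ K := by
              rw [ae_iff]
              exact hgr.2.1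
            filter_upwards [hKae] with x hx
            exact point n M N p hp0 hp1 u s hr C hC Φ hP j x (hj x hx)
        _ = ∑' Q : Idx n, ∫⁻ x,
            ENNReal.ofReal ((|s Q| * (C * pw (n + N + 1) Q.1 j)) ^ p) *
            (Metric.closedBall (ctr n Q) (rad Q.1 j C)).indicator (fun _ => 1) x ∂μ := by
            rw [lintegral_tsum]
            intro Q
            exact (measurable_const.mul
              (measurable_const.indicator Metric.isClosed_closedBall.measurableSet)).aemeasurable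
        _ ≤ _ := by
            refine ENNReal.tsum_le_tsum ?_
            intro Q
            rw [lintegral_const_mul _
              (measurable_const.indicator Metric.isClosed_closedBall.measurableSet),
              lintegral_indicator Metric.isClosed_closedBall.measurableSet, lintegral_const,
              one_mul, Measure.restrict_apply_univ]
            have h6 : μ (Metric.closedBall (ctr n Q) (rad Q.1 j C))
                ≤ ENNReal.ofReal (μ.real (Metric.closedBall (ctr n Q) (rad Q.1 j C'))) := by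
              rw [ofReal_measureReal]
              exact measure_mono (Metric.closedBall_subset_closedBall (hradle _ _))
            refine (mul_le_mul_right h6 _).trans ?_
            have h7 := pw_nonneg (n + N + 1) Q.1 j
            rw [← ENNReal.ofReal_mul (by positivity), ← ENNReal.ofReal_mul (by positivity)]
            apply ENNReal.ofReal_le_ofReal
            rw [prod_eq n (n + N + 1) α p C (s Q) Q.1 j hp0 hC, hg, hv]
            apply le_of_eq
            ring
    refine hint.trans ?_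
    rw [ENNReal.tsum_mul_left, ENNReal.ofReal_mul (by positivity), mul_assoc]
    gcongr
    rw [ENNReal.tsum_eq_iSup_sum]
    apply iSup_le
    intro G
    rw [← ENNReal.ofReal_sum_of_nonneg (fun Q _ => mul_nonneg (hg0 Q) (hv0 Q))]
    exact hfin G
  rw [hzero, mul_zero] at hlow
  have : 0 < ENNReal.ofReal ((1 / 2 : ℝ) ^ p) := by
    rw [ENNReal.ofReal_pos]
    positivity
  exact absurd hlow (not_le.mpr this)

end

end Pool.Agent.W91.BH
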