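import Pool.Agent.W91.BH.Half
import Pool.Agent.W91.BH.Low
import Pool.Agent.W91.BH.Full
import Pool.Agent.W855.BH.Pair
import Pool.Agent.W365.BH.Ovl
import Pool.Agent.W725.BH.Geo
import Pool.Agent.W987.BH.Fro
import Pool.Agent.W26.BH.Carl

set_option autoImplicit false

/-! Project BH, complete. -/

namespace Pool.Agent.W91.BH

theorem final : S_FULL :=
  full half (low (Pool.Agent.W855.BH.pair Pool.Agent.W565.BH.mom) Pool.Agent.W26.BH.carl supf'
    (Pool.Agent.W725.BH.geo Pool.Agent.W365.BH.ovl)) Pool.Agent.W987.BH.fro W166.BH.FB.fb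

end Pool.Agent.W91.BH
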