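import Pool.Agent.W91.BH.Asm
import Pool.Agent.W158.BH.Cov1
import Pool.Agent.W785.BH.Cov2
import Pool.Agent.W357.BH.Lam
import Pool.Agent.W565.BH.Mom
import Pool.Agent.W201.BH.Psi
import Pool.Agent.W5.BH.Shape
import Pool.Agent.W717.BH.Atom
import Pool.Agent.W166.BH.FB
import Pool.Agent.W306.BH.Rep

set_option autoImplicit false

/-! First half of project BH: Hausdorff null sets are null sets of both capacities. -/

namespace Pool.Agent.W91.BH

theorem half : S_MAIN :=
  main Pool.Agent.W158.BHCov1.cov1 Pool.Agent.W785.BH.Cov2.cov2 Pool.Agent.W357.BH.lam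
    (Pool.Agent.W5.BH.shape Pool.Agent.W201.BH.psi Pool.Agent.W565.BH.mom)
    (Pool.Agent.W717.BH.atom Pool.Agent.W565.BH.mom)
    (fun n M N α p ι F π c b hp0 hp1 hc hb =>
      Pool.Agent.W306.BH.rep n M N α p ι F π c b hp0 hp1 hc hb)
    W166.BH.FB.fb

end Pool.Agent.W91.BH
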