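import Mathlib

set_option autoImplicit false

open MeasureTheory
open scoped ENNReal ContDiff

/-! # Capacities of the Besov spaces and of the Bessel potentials of Hardy spaces, p ≤ 1
(MP_9b3711_an): definitions (smooth atomic decompositions of Frazier and Jawerth) and the
statements of the parts. -/

namespace Pool.Agent.W91.BH

noncomputable section

/-- `ℝ^n`. -/
abbrev E (n : ℕ) : Type := EuclideanSpace ℝ (Fin n)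

/-- Indices of dyadic cubes of side at most one: the level and the position. -/
abbrev Idx (n : ℕ) : Type := ℕ × (Fin n → ℤ)

/-- The half open dyadic cube of side `2 ^ (-k)` with lower corner `2 ^ (-k) z`. -/
def cube (n : ℕ) (Q : Idx n) : Set (E n) := {x | ∀ i, ⌊(2 : ℝ) ^ Q.1 * x i⌋ = Q.2 i}

/-- Smooth atoms for the cube `Q` of side `2 ^ (-k)`: supported in the cube `3 Q` with the same
centre, derivatives of order `m ≤ M` bounded by `(2 ^ k) ^ m`, and, if the side is less than one,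
vanishing moments up to the order `N`. -/
structure IsAtom (n M N : ℕ) (Q : Idx n) (a : E n → ℝ) : Prop where
  smooth : ContDiff ℝ ∞ a
  supp : ∀ x, a x ≠ 0 → ∀ i, |(2 : ℝ) ^ Q.1 * x i - ((Q.2 i : ℝ) + 1 / 2)| ≤ 3 / 2
  bound : ∀ m : ℕ, m ≤ M → ∀ x, ‖iteratedFDeriv ℝ m a x‖ ≤ ((2 : ℝ) ^ Q.1) ^ m
  moment : 0 < Q.1 → ∀ β : Fin n → ℕ, ∑ i, β i ≤ N → ∫ x, (∏ i, x i ^ β i) * a x = 0

/-- `u` is the sum of `s Q` times atoms, in the sense of tempered distributions. -/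
def Rep (n M N : ℕ) (u : E n → ℝ) (s : Idx n → ℝ) : Prop :=
  ∃ a : Idx n → E n → ℝ, (∀ Q, IsAtom n M N Q (a Q)) ∧
    ∀ φ : SchwartzMap (E n) ℝ,
      HasSum (fun Q => s Q * ∫ x, a Q x * φ x) (∫ x, u x * φ x)

/-- The `p`-th power of the quasi-norm of the sequence space of the Besov space
`Λ^{pp}_α = B^α_{pp}`. -/
def bCost (n : ℕ) (α p : ℝ) (s : Idx n → ℝ) : ℝ≥0∞ :=
  ∑' Q : Idx n, ENNReal.ofReal (((2 : ℝ) ^ ((Q.1 : ℝ) * α) * |s Q|) ^ p) *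
    ENNReal.ofReal ((2 : ℝ) ^ (-((Q.1 : ℝ) * n)))

/-- The `p`-th power of the quasi-norm of the sequence space of the Lizorkin-Triebel space
`F^α_{p2}` (the Bessel potentials of `H^p`). -/
def fCost (n : ℕ) (α p : ℝ) (s : Idx n → ℝ) : ℝ≥0∞ :=
  ∫⁻ x : E n, (∑' Q : Idx n, (cube n Q).indicator
    (fun _ => ENNReal.ofReal (((2 : ℝ) ^ ((Q.1 : ℝ) * α) * |s Q|) ^ (2 : ℝ))) x) ^ (p / 2)

/-- Test functions for the set `K`. -/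
def IsTest (n : ℕ) (K : Set (E n)) (u : E n → ℝ) : Prop :=
  ContDiff ℝ ∞ u ∧ HasCompactSupport u ∧ ∀ x ∈ K, 1 ≤ u x

/-- The capacity of `Λ^{pp}_α`. -/
def capA (n M N : ℕ) (α p : ℝ) (K : Set (E n)) : ℝ≥0∞ :=
  ⨅ (u : E n → ℝ) (s : Idx n → ℝ) (_ : IsTest n K u) (_ : Rep n M N u s), bCost n α p s

/-- The capacity of the space of Bessel potentials of `H^p`. -/
def capB (n M N : ℕ) (α p : ℝ) (K : Set (E n)) : ℝ≥0∞ :=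
  ⨅ (u : E n → ℝ) (s : Idx n → ℝ) (_ : IsTest n K u) (_ : Rep n M N u s), fCost n α p s

/-! ## The parts -/

/-- Finite dyadic covers of null sets. -/
def S_COV1 : Prop := ∀ (n : ℕ) (d : ℝ) (K : Set (E n)), 0 < d → IsCompact K →
  Measure.hausdorffMeasure d K = 0 → ∀ ε : ℝ, 0 < ε → ∃ F : Finset (Idx n),
    K ⊆ ⋃ Q ∈ F, cube n Q ∧ ∑ Q ∈ F, (2 : ℝ) ^ (-((Q.1 : ℝ) * d)) < ε

open Classical in
/-- Optimal dyadic covers are disjoint and satisfy a packing condition. -/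
def S_COV2 : Prop := ∀ (n : ℕ) (d : ℝ) (K : Set (E n)) (F0 : Finset (Idx n)) (ε : ℝ) (a : ℕ),
  0 < n → 0 < d → K ⊆ ⋃ Q ∈ F0, cube n Q →
  ∑ Q ∈ F0, (2 : ℝ) ^ (-((Q.1 : ℝ) * d)) < ε → ε ≤ (2 : ℝ) ^ (-((a : ℝ) * d)) →
  ∃ F : Finset (Idx n), K ⊆ ⋃ Q ∈ F, cube n Q ∧
    ∑ Q ∈ F, (2 : ℝ) ^ (-((Q.1 : ℝ) * d)) < ε ∧ (∀ Q ∈ F, a ≤ Q.1) ∧
    (∀ Q ∈ F, ∀ Q' ∈ F, Q ≠ Q' → Disjoint (cube n Q) (cube n Q')) ∧
    ∀ P : Idx n, ∑ Q ∈ F.filter (fun Q => cube n Q ⊆ cube n P),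
      (2 : ℝ) ^ (-((Q.1 : ℝ) * d)) ≤ (2 : ℝ) ^ (-((P.1 : ℝ) * d))

/-- Weights. -/
def S_LAM : Prop := ∀ (ι : Type) [Fintype ι] (w : ι → ℝ) (T : ι → ι → ℝ), (∀ i, 0 < w i) →
  (∀ i j, 0 ≤ T i j) → (∀ j, ∑ i, w i * T i j ≤ w j / 2) →
  ∃ l : ι → ℝ, (∀ i, 1 ≤ l i) ∧ (∀ i, 1 + ∑ j, T i j * l j ≤ l i) ∧
    ∑ i, w i * l i ≤ 2 * ∑ i, w i

/-- Vanishing moments up to the order `N`. -/
def VM (n N : ℕ) (B : E n → ℝ) : Prop :=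
  ∀ β : Fin n → ℕ, ∑ i, β i ≤ N → ∫ x, (∏ i, x i ^ β i) * B x = 0

/-- Moments and translations. -/
def S_MOM : Prop := ∀ (n N : ℕ) (B : E n → ℝ), Continuous B → HasCompactSupport B →
  (∀ β : Fin n → ℕ, ∑ i, β i < N → ∫ x, (∏ i, x i ^ β i) * B x = 0) →
  ∀ (β : Fin n → ℕ) (h : E n), ∑ i, β i ≤ N →
    ∫ x, (∏ i, x i ^ β i) * B (x - h) = ∫ x, (∏ i, x i ^ β i) * B x

/-- The building blocks: `B` has vanishing moments, `B + η` is nonnegative and at least one on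
the unit cube, `η` is small and lives in the large cube of side `2 ^ a` (which contains the unit
cube at the position `σ`). -/
structure IsBlock (n N a : ℕ) (C0 : ℝ) (σ : Fin n → ℤ) (B η : E n → ℝ) : Prop where
  smooth : ContDiff ℝ ∞ B
  one : ∀ x : E n, (∀ i, 0 ≤ x i ∧ x i < 1) → 1 ≤ B x + η x
  nonneg : ∀ x, 0 ≤ B x + η x
  small : ∀ x, |η x| ≤ C0 / ((2 : ℝ) ^ a) ^ n
  suppη : ∀ x, η x ≠ 0 → ∀ i, -(σ i : ℝ) ≤ x i ∧ x i < (2 : ℝ) ^ a - (σ i : ℝ)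
  supp : ∀ x, B x ≠ 0 → ∀ i, -(σ i : ℝ) - 1 ≤ x i ∧ x i ≤ (2 : ℝ) ^ a - (σ i : ℝ) + 1
  moment : VM n N B

/-- A bump function. -/
def S_PSI : Prop := ∀ n : ℕ, ∃ ψ : E n → ℝ, ContDiff ℝ ∞ ψ ∧ (∀ x, 0 ≤ ψ x) ∧ (∀ x, ψ x ≤ 1) ∧
  (∀ x : E n, (∀ i, 0 ≤ x i ∧ x i ≤ 1) → ψ x = 1) ∧ ∀ x, ψ x ≠ 0 → ∀ i, -1 < x i ∧ x i < 2

/-- Existence of building blocks. -/
def S_SHAPE : Prop := ∀ (n N : ℕ), 0 < n → ∃ C0 : ℝ, 0 < C0 ∧ ∃ a0 : ℕ, ∀ a, a0 ≤ a →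
  ∀ σ : Fin n → ℤ, (∀ i, 0 ≤ σ i ∧ σ i < 2 ^ a) → ∃ B η : E n → ℝ, IsBlock n N a C0 σ B η

/-- The point `2 ^ k x - z`. -/
def dil (n : ℕ) (Q : Idx n) (x : E n) : E n :=
  (2 : ℝ) ^ Q.1 • x - WithLp.toLp 2 (fun i => (Q.2 i : ℝ))

/-- Rescaled blocks are multiples of atoms for the ancestor of order `a`. -/
def S_ATOM : Prop := ∀ (n M N a : ℕ) (σ : Fin n → ℤ) (B : E n → ℝ),
  ContDiff ℝ ∞ B → (∀ i, 0 ≤ σ i ∧ σ i < 2 ^ a) →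
  (∀ x, B x ≠ 0 → ∀ i, -(σ i : ℝ) - 1 ≤ x i ∧ x i ≤ (2 : ℝ) ^ a - (σ i : ℝ) + 1) →
  VM n N B → ∃ C : ℝ, 0 < C ∧ ∀ Q : Idx n, a ≤ Q.1 → (∀ i, Q.2 i % 2 ^ a = σ i) →
    IsAtom n M N (Q.1 - a, fun i => Q.2 i / 2 ^ a) (fun x => C⁻¹ * B (dil n Q x))

/-- The Lizorkin-Triebel cost is at most the Besov cost. -/
def S_FB : Prop := ∀ (n : ℕ) (α p : ℝ) (s : Idx n → ℝ), 0 < p → p ≤ 2 →
  fCost n α p s ≤ bCost n α p s

/-- The main result: null sets of the Hausdorff measure are null sets of both capacities. -/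
def S_MAIN : Prop := ∀ (n M N : ℕ) (α p : ℝ) (K : Set (E n)), 0 < p → p ≤ 1 → 0 < α →
  α * p < n → IsCompact K → Measure.hausdorffMeasure (n - α * p) K = 0 →
  capA n M N α p K = 0 ∧ capB n M N α p K = 0

end

end Pool.Agent.W91.BH
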