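import Pool.Agent.W91.BH.Stm

set_option autoImplicit false

open MeasureTheory
open scoped ENNReal ContDiff

/-! # Second half of project BH: null sets of the capacities are null sets of the Hausdorff
measure (`capB K = 0` implies `μH[n - α p] K = 0`). -/

namespace Pool.Agent.W91.BH

noncomputable section

/-- The centre of a cube. -/
def ctr (n : ℕ) (Q : Idx n) : E n :=
  WithLp.toLp 2 (fun i => ((Q.2 i : ℝ) + 1 / 2) / (2 : ℝ) ^ Q.1)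

/-- `μ` is a probability measure on `K` with the growth condition of order `e`. -/
def Growth (n : ℕ) (K : Set (E n)) (e : ℝ) (μ : Measure (E n)) (C : ℝ) : Prop :=
  IsProbabilityMeasure μ ∧ μ Kᶜ = 0 ∧ 0 < C ∧
    ∀ (x : E n) (r : ℝ), 0 < r → μ (Metric.closedBall x r) ≤ ENNReal.ofReal (C * r ^ e)

/-- Frostman's lemma. -/
def S_FRO : Prop := ∀ (n : ℕ) (e : ℝ) (K : Set (E n)), 0 ≤ e → IsCompact K → K.Nonempty →
  (0 < e → Measure.hausdorffMeasure e K ≠ 0) → ∃ μ C, Growth n K e μ C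

/-- The radius of the region where the pairing of an atom and the mollifier does not vanish. -/
def rad (k j : ℕ) (C : ℝ) : ℝ := C * ((1 / 2 : ℝ) ^ k + (1 / 2 : ℝ) ^ j)

/-- The size of the pairing of an atom of level `k` with the mollifier of level `j`. -/
def pw (m k j : ℕ) : ℝ := if k ≤ j then 1 else ((1 / 2 : ℝ) ^ (k - j)) ^ m

/-- Pairing of atoms with mollifiers. -/
def S_PAIR : Prop := ∀ (n M N : ℕ), ∃ C : ℝ, 0 < C ∧ ∃ Φ : ℕ → E n → SchwartzMap (E n) ℝ,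
  (∀ j x y, 0 ≤ Φ j x y) ∧ (∀ j x, ∫ y, Φ j x y = 1) ∧
  (∀ j x y, Φ j x y ≠ 0 → dist y x ≤ C * (1 / 2 : ℝ) ^ j) ∧
  ∀ (Q : Idx n) (a : E n → ℝ), IsAtom n M N Q a → ∀ j x,
    |∫ y, a y * Φ j x y| ≤ C * pw (n + N + 1) Q.1 j ∧
    (rad Q.1 j C < dist x (ctr n Q) → ∫ y, a y * Φ j x y = 0)

open Classical in
/-- Carleson embedding. -/
def S_CARL : Prop := ∀ (n : ℕ) (G : Finset (Idx n)) (c v : Idx n → ℝ) (A : ℝ), 0 ≤ A →
  (∀ Q, 0 ≤ c Q) → (∀ Q, 0 ≤ v Q) →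
  (∀ P ∈ G, ∑ Q ∈ G.filter (fun Q => cube n Q ⊆ cube n P), v Q
    ≤ A * (2 : ℝ) ^ (-((P.1 : ℝ) * n))) →
  ENNReal.ofReal (∑ Q ∈ G, c Q * v Q) ≤ ENNReal.ofReal A *
    ∫⁻ x, ⨆ Q ∈ G, (cube n Q).indicator (fun _ => ENNReal.ofReal (c Q)) x

/-- The cost bounds the integral of the supremum. -/
def S_SUPF : Prop := ∀ (n : ℕ) (α p : ℝ) (s : Idx n → ℝ) (G : Finset (Idx n)), 0 < p →
  ∫⁻ x, ⨆ Q ∈ G, (cube n Q).indicator
    (fun _ => ENNReal.ofReal (((2 : ℝ) ^ ((Q.1 : ℝ) * α) * |s Q|) ^ p)) x ≤ fCost n α p s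

open Classical in
/-- Overlap of balls about the centres of the cubes of one level. -/
def S_OVL : Prop := ∀ (n : ℕ), ∃ B : ℝ, 0 < B ∧ ∀ (G : Finset (Idx n)) (P : Idx n) (k : ℕ)
  (r : ℝ) (μ : Measure (E n)) [IsProbabilityMeasure μ], (1 / 2 : ℝ) ^ k ≤ r → P.1 ≤ k →
  ∑ Q ∈ G.filter (fun Q => Q.1 = k ∧ cube n Q ⊆ cube n P),
    μ.real (Metric.closedBall (ctr n Q) r)
    ≤ B * ((2 : ℝ) ^ k * r) ^ n * μ.real (Metric.closedBall (ctr n P) (B * (1 / 2) ^ P.1 + r))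

open Classical in
/-- The packing condition for the weights. -/
def S_GEO : Prop := ∀ (n N : ℕ) (α p e C C' : ℝ) (K : Set (E n)) (μ : Measure (E n)),
  0 < n → 0 < α → 0 < p → 0 ≤ e → e ≤ n → (n : ℝ) ≤ α * p + e →
  2 * (n : ℝ) ≤ p * (n + N + 1) → Growth n K e μ C → 1 ≤ C' →
  ∃ A : ℝ, 0 < A ∧ ∀ (j : ℕ) (G : Finset (Idx n)), ∀ P ∈ G,
    ∑ Q ∈ G.filter (fun Q => cube n Q ⊆ cube n P),
      (2 : ℝ) ^ (-((Q.1 : ℝ) * (α * p))) * ((pw (n + N + 1) Q.1 j) ^ p *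
        μ.real (Metric.closedBall (ctr n Q) (rad Q.1 j C')))
    ≤ A * (2 : ℝ) ^ (-((P.1 : ℝ) * n))

/-- Lower bound for the cost. -/
def S_LOW : Prop := ∀ (n M N : ℕ) (α p e C : ℝ) (K : Set (E n)) (μ : Measure (E n)),
  0 < n → 0 < α → 0 < p → p ≤ 1 → 0 ≤ e → e ≤ n → (n : ℝ) ≤ α * p + e →
  2 * (n : ℝ) ≤ p * (n + N + 1) → IsCompact K → Growth n K e μ C → capB n M N α p K ≠ 0

/-- The full answer. -/
def S_FULL : Prop := ∀ (n M N : ℕ) (α p : ℝ) (K : Set (E n)), 0 < n → 0 < α → 0 < p → p ≤ 1 →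
  2 * (n : ℝ) ≤ p * (n + N + 1) → IsCompact K →
  (capA n M N α p K = 0 ↔ capB n M N α p K = 0) ∧
  (α * p < n → (capA n M N α p K = 0 ↔ Measure.hausdorffMeasure (n - α * p) K = 0)) ∧
  (n ≤ α * p → (capA n M N α p K = 0 ↔ K = ∅))

end

end Pool.Agent.W91.BH
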